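import Pool.Agent.R928.FX.LemB

/-!
# MP_2e96e9_co: hypergraphs witnessing the failure of the fixed intersection property

For all `1 ≤ p ≤ r` such that `[r]^(p)` does not have the fixed intersection property there is an
`r`-uniform hypergraph with the properties (a) and (b) of the problem.
The paper proof is by helper322 of the team.
-/

set_option autoImplicit false
set_option linter.all false

open Function Pool.Agent.R928.FX

namespace Pool.Agent.Results.MP_2e96e9_co.Witness

/-- the `p`-element subsets of `α` -/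
abbrev Sub (α : Type) (p : ℕ) : Type := {x : Finset α // x.card = p}

/-- `f` fixes an intersection -/
def FixesIntersection {n p : ℕ} (f : Sub (Fin n) p → Sub (Fin n) p) : Prop :=
  ∃ x y : Sub (Fin n) p, x ≠ y ∧ ((f x).1 ∩ (f y).1).card = (x.1 ∩ y.1).card

/-- the fixed intersection property of `[n]^(p)` -/
def FIP (n p : ℕ) : Prop :=
  ∀ f : Sub (Fin n) p → Sub (Fin n) p, (¬ ∃ c, ∀ x, f x = c) → FixesIntersection f

/-- `D` is an orientation of the `r`-uniform hypergraph with edge set `E`: on each edge it is a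
linear ordering of the vertices of the edge -/
def IsOrientation {V : Type} [DecidableEq V] (r : ℕ) (E : Finset (Finset V)) (D : Finset V → Fin r → V) : Prop :=
  ∀ e ∈ E, Injective (D e) ∧ Finset.univ.image (D e) = e

/-- the `I`-degree of `A` -/
def deg {V : Type} [DecidableEq V] {r : ℕ} (E : Finset (Finset V)) (D : Finset V → Fin r → V) (I : Finset (Fin r)) (A : Finset V) : ℕ :=
  (E.filter (fun e => I.image (D e) = A)).card

theorem exists_perm {r : ℕ} (y y' : Finset (Fin r)) (h : y.card = y'.card) : ∃ τ : Equiv.Perm (Fin r), y.map τ.toEmbedding = y' := by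
  classical
  have e := Finset.equivOfCardEq h
  refine ⟨Equiv.extendSubtype (p := fun a => a ∈ y) (q := fun a => a ∈ y') e, ?_⟩
  apply Finset.eq_of_subset_of_card_le
  · intro a ha
    rw [Finset.mem_map] at ha
    obtain ⟨b, hb, rfl⟩ := ha
    exact Equiv.extendSubtype_mem (p := fun a => a ∈ y) (q := fun a => a ∈ y') e b hb
  · rw [Finset.card_map, h]

open Classical in
/-- number of permutations taking `x` to `y` -/
noncomputable def cnt {r : ℕ} (x y : Finset (Fin r)) : ℕ :=
  (Finset.univ.filter fun s : Equiv.Perm (Fin r) => x.map s.toEmbedding = y).card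

theorem cnt_eq {r : ℕ} (x y y' : Finset (Fin r)) (h : y.card = y'.card) : cnt x y ≤ cnt x y' := by
  classical
  obtain ⟨τ, hτ⟩ := exists_perm y y' h
  unfold cnt
  apply Finset.card_le_card_of_injOn (fun s => s.trans τ)
  · intro s hs
    simp only [Finset.coe_filter, Finset.mem_univ, true_and, Set.mem_setOf_eq] at hs ⊢
    rw [← hτ, ← hs, Finset.map_map]
    rfl
  · intro s _ s' _ hss
    ext a
    have := congrArg (fun u : Equiv.Perm (Fin r) => u a) hss
    simp only [Equiv.trans_apply] at this
    rw [τ.injective this]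

theorem sum_cnt {r p : ℕ} (x : Sub (Fin r) p) : ∑ y : Sub (Fin r) p, cnt x.1 y.1 = Fintype.card (Equiv.Perm (Fin r)) := by
  classical
  unfold cnt
  rw [← Finset.card_univ, ← Finset.card_biUnion]
  · congr 1
    ext s
    simp only [Finset.mem_biUnion, Finset.mem_univ, true_and, Finset.mem_filter, iff_true]
    exact ⟨⟨x.1.map s.toEmbedding, by rw [Finset.card_map, x.2]⟩, rfl⟩
  · intro y _ y' _ hyy
    show Disjoint _ _
    rw [Finset.disjoint_left]
    intro s hs hs'
    simp only [Finset.mem_filter, Finset.mem_univ, true_and] at hs hs'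
    exact hyy (Subtype.ext (hs.symm.trans hs'))

theorem lemA {r p : ℕ} (f : Sub (Fin r) p → Sub (Fin r) p) (hf : ¬ FixesIntersection f) (hpr : p ≤ r)
    (s : Equiv.Perm (Fin r)) : ∃ x, x.1.map s.toEmbedding = (f x).1 := by
  classical
  have hpos : 0 < Fintype.card (Sub (Fin r) p) := by
    rw [Fintype.card_pos_iff]
    obtain ⟨x, hx⟩ := Finset.exists_subset_card_eq (s := (Finset.univ : Finset (Fin r))) (n := p) (by rw [Finset.card_univ, Fintype.card_fin]; exact hpr)
    exact ⟨⟨x, hx.2⟩⟩
  -- each x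
  have h1 : ∀ x : Sub (Fin r) p, Fintype.card (Sub (Fin r) p) * cnt x.1 (f x).1 = Fintype.card (Equiv.Perm (Fin r)) := by
    intro x
    rw [← sum_cnt x, Finset.sum_congr rfl (g := fun _ => cnt x.1 (f x).1)]
    · rw [Finset.sum_const, Finset.card_univ, smul_eq_mul]
    · intro y _
      exact le_antisymm (cnt_eq _ _ _ (by rw [y.2, (f x).2])) (cnt_eq _ _ _ (by rw [y.2, (f x).2]))
  have h2 : ∑ x : Sub (Fin r) p, cnt x.1 (f x).1 = Fintype.card (Equiv.Perm (Fin r)) := by
    have : Fintype.card (Sub (Fin r) p) * ∑ x : Sub (Fin r) p, cnt x.1 (f x).1 =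
        Fintype.card (Sub (Fin r) p) * Fintype.card (Equiv.Perm (Fin r)) := by
      rw [Finset.mul_sum, Finset.sum_congr rfl (fun x _ => h1 x), Finset.sum_const, Finset.card_univ, smul_eq_mul]
    exact Nat.eq_of_mul_eq_mul_left hpos this
  -- swap
  have h3 : ∑ x : Sub (Fin r) p, cnt x.1 (f x).1 =
      ∑ s : Equiv.Perm (Fin r), (Finset.univ.filter fun x : Sub (Fin r) p => x.1.map s.toEmbedding = (f x).1).card := by
    unfold cnt
    simp only [Finset.card_filter]
    rw [Finset.sum_comm]
  have h4 : ∀ s : Equiv.Perm (Fin r), (Finset.univ.filter fun x : Sub (Fin r) p => x.1.map s.toEmbedding = (f x).1).card ≤ 1 := by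
    intro s
    rw [Finset.card_le_one]
    intro x hx y hy
    by_contra hxy
    simp only [Finset.mem_filter, Finset.mem_univ, true_and] at hx hy
    apply hf
    refine ⟨x, y, hxy, ?_⟩
    rw [← hx, ← hy, ← Finset.map_inter, Finset.card_map]
  by_contra hcon
  push Not at hcon
  have h5 : (Finset.univ.filter fun x : Sub (Fin r) p => x.1.map s.toEmbedding = (f x).1).card = 0 := by
    rw [Finset.card_eq_zero, Finset.filter_eq_empty_iff]
    exact fun x _ => hcon x
  have h6 : ∑ s : Equiv.Perm (Fin r), (Finset.univ.filter fun x : Sub (Fin r) p => x.1.map s.toEmbedding = (f x).1).card <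
      ∑ _s : Equiv.Perm (Fin r), 1 := by
    apply Finset.sum_lt_sum (fun s _ => h4 s)
    exact ⟨s, Finset.mem_univ _, by rw [h5]; exact Nat.one_pos⟩
  rw [← h3, h2, Finset.sum_const, Finset.card_univ, smul_eq_mul, mul_one] at h6
  exact lt_irrefl _ h6

/-- **Main theorem.** -/
theorem result (p r : ℕ) (hp : 1 ≤ p) (hpr : p ≤ r) (hfail : ¬ FIP r p) :
    ∃ (V : Type) (_ : Fintype V) (_ : DecidableEq V) (E : Finset (Finset V)),
      (∀ e ∈ E, e.card = r) ∧
      (∃ w : Finset V → Fin (r.choose p), (∀ i, ∃ x : Finset V, x.card = p ∧ w x = i) ∧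
        ∀ e ∈ E, ∀ i, ¬ ∀ x ⊆ e, x.card = p → w x = i) ∧
      (∀ D : Finset V → Fin r → V, IsOrientation r E D →
        ∃ A : Finset V, A.card = p ∧ ∀ I : Finset (Fin r), I.card = p → 0 < deg E D I A) := by
  classical
  unfold FIP at hfail
  push Not at hfail
  obtain ⟨f0, hf0, hfix⟩ := hfail
  -- basic
  obtain ⟨x1, y1, hxy⟩ : ∃ x1 y1 : Sub (Fin r) p, f0 x1 ≠ f0 y1 := by
    obtain ⟨x, hx⟩ := Finset.exists_subset_card_eq (s := (Finset.univ : Finset (Fin r))) (n := p) (by rw [Finset.card_univ, Fintype.card_fin]; exact hpr)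
    obtain ⟨y, hy⟩ := hf0 (f0 ⟨x, hx.2⟩)
    exact ⟨y, ⟨x, hx.2⟩, hy⟩
  have hRpos : 0 < r.choose p := Nat.choose_pos hpr
  have hNe : Nonempty (Sub (Fin r) p) := ⟨x1⟩
  have hcard : Fintype.card (Sub (Fin r) p) = r.choose p := by
    rw [Fintype.card_finset_len, Fintype.card_fin]
  obtain ⟨V, hV, c, hc, hram⟩ := lemB p r hp (Fin (r.choose p)) (Sub (Fin r) p)
  have hVf : Fintype V := Fintype.ofFinite V
  obtain ⟨E, hE⟩ : ∃ E : Finset (Finset V), E = Finset.univ.filter (fun e : Finset V => e.card = r ∧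
      (∀ x : Finset V, x ⊆ e → x.card = p → (c (x : Set V)).isSome) ∧
      ∀ i, ¬ ∀ x : Finset V, x ⊆ e → x.card = p → c (x : Set V) = some i) := ⟨_, rfl⟩
  -- preimages of subsets
  have hpre : ∀ φ : Fin r → V, Injective φ → ∀ x ⊆ Finset.univ.image φ, ∃ x' : Finset (Fin r), x'.card = x.card ∧ x'.image φ = x := by
    intro φ hφ x hx
    obtain ⟨x', _, hx'⟩ := Finset.subset_image_iff.mp hx
    exact ⟨x', by rw [← hx', Finset.card_image_of_injective _ hφ], hx'⟩
  -- edges
  have hedge : ∀ (t : Finset (Fin r) → Fin (r.choose p)) (φ : Fin r → V), Injective φ →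
      (∀ x : Finset (Fin r), x.card = p → c (φ '' x) = some (t x)) → (∃ x y : Finset (Fin r), x.card = p ∧ y.card = p ∧ t x ≠ t y) →
      Finset.univ.image φ ∈ E := by
    intro t φ hφ ht ⟨x, y, hx, hy, hxy⟩
    rw [hE, Finset.mem_filter]
    refine ⟨Finset.mem_univ _, by rw [Finset.card_image_of_injective _ hφ, Finset.card_univ, Fintype.card_fin], ?_, ?_⟩
    · intro z hz hzp
      obtain ⟨z', hz', rfl⟩ := hpre φ hφ z hz
      rw [Finset.coe_image, ht z' (hz'.trans hzp)]
      rfl
    · intro i hi
      have hx2 := hi (x.image φ) (Finset.image_subset_image (Finset.subset_univ _)) (by rw [Finset.card_image_of_injective _ hφ, hx])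
      have hy2 := hi (y.image φ) (Finset.image_subset_image (Finset.subset_univ _)) (by rw [Finset.card_image_of_injective _ hφ, hy])
      rw [Finset.coe_image, ht x hx] at hx2
      rw [Finset.coe_image, ht y hy] at hy2
      exact hxy ((Option.some.inj hx2).trans (Option.some.inj hy2).symm)
  refine ⟨V, hVf, inferInstance, E, ?_, ?_, ?_⟩
  · intro e he
    rw [hE, Finset.mem_filter] at he
    exact he.2.1
  · refine ⟨fun x => (c x).getD ⟨0, hRpos⟩, ?_, ?_⟩
    · intro i
      obtain ⟨h, hh⟩ := hram fun _ => x1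
      obtain ⟨φ, hφ, hcφ⟩ := hh fun _ => i
      refine ⟨x1.1.image φ, by rw [Finset.card_image_of_injective _ hφ, x1.2], ?_⟩
      show (c ((x1.1.image φ : Finset V) : Set V)).getD ⟨0, hRpos⟩ = i
      rw [Finset.coe_image, (hcφ x1.1 x1.2).1]
      rfl
    · intro e he i hi
      rw [hE, Finset.mem_filter] at he
      apply he.2.2.2 i
      intro x hx hxp
      have h1 := he.2.2.1 x hx hxp
      have h2 := hi x hx hxp
      rw [Option.isSome_iff_exists] at h1
      obtain ⟨j, hj⟩ := h1
      have h3 : (c (x : Set V)).getD ⟨0, hRpos⟩ = i := h2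
      rw [hj] at h3 ⊢
      exact congrArg some h3
  · intro D hD
    by_contra hcon
    push Not at hcon
    have hcon' : ∀ S : Set V, ∃ I : Sub (Fin r) p, ∀ A : Finset V, (A : Set V) = S → A.card = p → deg E D I.1 A = 0 := by
      intro S
      by_cases hS : ∃ A : Finset V, (A : Set V) = S ∧ A.card = p
      · obtain ⟨A, hAS, hA⟩ := hS
        obtain ⟨I, hI, hd⟩ := hcon A hA
        refine ⟨⟨I, hI⟩, fun B hB _ => ?_⟩
        have : B = A := Finset.coe_injective (hB.trans hAS.symm)
        rw [this]
        exact Nat.le_zero.mp hd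
      · exact ⟨x1, fun A hA hAp => absurd ⟨A, hA, hAp⟩ hS⟩
    choose g hg using hcon'
    obtain ⟨h, hh⟩ := hram g
    -- the key contradiction
    have hkey : ∀ (φ : Fin r → V), Injective φ → Finset.univ.image φ ∈ E → ∀ s : Equiv.Perm (Fin r),
        (∀ a, D (Finset.univ.image φ) (s a) = φ a) → ∀ x : Finset (Fin r), x.card = p → (g (φ '' x)).1 ≠ x.map s.toEmbedding := by
      intro φ hφ hφE s hs x hx hgx
      have h1 := hg (φ '' x) (x.image φ) (by rw [Finset.coe_image]) (by rw [Finset.card_image_of_injective _ hφ, hx])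
      unfold deg at h1
      rw [Finset.card_eq_zero, Finset.filter_eq_empty_iff] at h1
      apply h1 hφE
      rw [hgx, Finset.map_eq_image, Finset.image_image]
      apply Finset.image_congr
      intro a _
      exact hs a
    have hperm : ∀ (φ : Fin r → V), Injective φ → Finset.univ.image φ ∈ E → ∃ s : Equiv.Perm (Fin r),
        ∀ a, D (Finset.univ.image φ) (s a) = φ a := by
      intro φ hφ hφE
      obtain ⟨hinj, himg⟩ := hD _ hφE
      have h1 : ∀ a, ∃ b, D (Finset.univ.image φ) b = φ a := by
        intro a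
        have : φ a ∈ Finset.univ.image (D (Finset.univ.image φ)) := by
          rw [himg]; exact Finset.mem_image_of_mem _ (Finset.mem_univ _)
        obtain ⟨b, _, hb⟩ := Finset.mem_image.mp this
        exact ⟨b, hb⟩
      choose s hs using h1
      have hsinj : Injective s := fun a b hab => hφ (by rw [← hs a, ← hs b, hab])
      exact ⟨Equiv.ofBijective s (Finite.injective_iff_bijective.mp hsinj), hs⟩
    by_cases hinj : Injective h
    · have hbij : Bijective h := by
        rw [Fintype.bijective_iff_injective_and_card]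
        exact ⟨hinj, by rw [hcard, Fintype.card_fin]⟩
      obtain ⟨hi, hhi⟩ := hbij.surjective.hasRightInverse
      obtain ⟨φ, hφ, hcφ⟩ := hh fun x => if hx : x.card = p then hi (f0 ⟨x, hx⟩) else ⟨0, hRpos⟩
      have hφE : Finset.univ.image φ ∈ E := by
        apply hedge _ φ hφ (fun x hx => (hcφ x hx).1)
        refine ⟨x1.1, y1.1, x1.2, y1.2, ?_⟩
        rw [dif_pos x1.2, dif_pos y1.2]
        intro heq
        exact hxy (by rw [← hhi (f0 x1), ← hhi (f0 y1)]; exact congrArg h heq)
      obtain ⟨s, hs⟩ := hperm φ hφ hφE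
      obtain ⟨x, hx⟩ := lemA f0 hfix hpr s
      apply hkey φ hφ hφE s hs x.1 x.2
      rw [(hcφ x.1 x.2).2, dif_pos x.2, hhi, hx]
    · unfold Injective at hinj
      push Not at hinj
      obtain ⟨i, j, hij, hne⟩ := hinj
      obtain ⟨φ, hφ, hcφ⟩ := hh fun x => if x = x1.1 then i else j
      have hxy1 : x1.1 ≠ y1.1 := fun heq => hxy (by rw [Subtype.ext heq])
      have hφE : Finset.univ.image φ ∈ E := by
        apply hedge _ φ hφ (fun x hx => (hcφ x hx).1)
        refine ⟨x1.1, y1.1, x1.2, y1.2, ?_⟩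
        rw [if_pos rfl, if_neg hxy1.symm]
        exact hne
      obtain ⟨s, hs⟩ := hperm φ hφ hφE
      have hall : ∀ x : Finset (Fin r), h (if x = x1.1 then i else j) = h i := by
        intro x
        split_ifs
        · rfl
        · exact hij.symm
      have hxc : ((h i).1.map s.symm.toEmbedding).card = p := by rw [Finset.card_map, (h i).2]
      apply hkey φ hφ hφE s hs _ hxc
      rw [(hcφ _ hxc).2, hall, Finset.map_map]
      ext a
      simp

end Pool.Agent.Results.MP_2e96e9_co.Witness
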